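import Pool.Agent.Lib.MP_6ff8d9_an.T3
import Pool.Agent.Lib.MP_6ff8d9_an_h19.BaireF
import Pool.Agent.Lib.MP_6ff8d9_an_h73.Recovery

/-!
# MP_6ff8d9_an: for `n ≥ 2` the extreme points of `N(𝔹)` are dense in `N(𝔹)`

`Cn n` is `ℂⁿ` with the Euclidean norm, `NB n` is `N(𝔹)`, `IsExtremePoint` is the definition of the
problem (all three in `Pool.Agent.Lib.MP_6ff8d9_an.Defs`).
-/

open Metric Filter Topology

namespace Pool.Agent.Results.MP_6ff8d9_an.Dense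

open Pool.Agent.Lib.MP_6ff8d9_an

/-- For every `n ≥ 2`, every `g ∈ N(𝔹)`, every `ρ < 1` and every `ε > 0` there is an extreme point
`g'` of `N(𝔹)` with `|g' - g| < ε` on the ball `|z| ≤ ρ`. -/
theorem result : ∀ n : ℕ, 2 ≤ n → ∀ g ∈ NB n, ∀ ρ < (1 : ℝ), ∀ ε > (0 : ℝ),
    ∃ g' : Cn n → ℂ, IsExtremePoint n g' ∧ ∀ z : Cn n, ‖z‖ ≤ ρ → ‖g' z - g z‖ < ε := by
  intro n hn
  exact density_of_approx (by omega) (Good n) (KB_subset_closure_Good hn)
    (approx_of_good_of hn (fun p h0 _ hδ hp _ hε => recovery hn p h0 hδ hp hε))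

end Pool.Agent.Results.MP_6ff8d9_an.Dense
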