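import Pool.Agent.Lib.MP_6ff8d9_an_h82.PRot

/-!
# MP_6ff8d9_an: extreme points, irreducible functions and prime functions

`Cn n` is `ℂⁿ` with the Euclidean norm, `IsExtremePoint n g` says that `g` is an extreme point of
`N(𝔹)` (both in `Pool.Agent.Lib.MP_6ff8d9_an.Defs`). `IsPrime`, `IsIrreducible`, `IsExtremeHInf` and
`HasContact` are defined in `Pool.Agent.Lib.MP_6ff8d9_an_h82.PDefs`.
-/

open Metric Set

namespace Pool.Agent.Results.MP_6ff8d9_an.Prime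

open Pool.Agent.Lib.MP_6ff8d9_an Pool.Agent.Lib.MP_6ff8d9_an.PR

/-- Let `n ≥ 1`, let `F : 𝔹 → 𝔻` be holomorphic with `F 0 = 0`, `F ≠ 0`, and let
`g = (1 + F) / (1 - F)` (every `g ∈ N(𝔹)` other than `1` is of this form). Then `F = h ∘ W`, where
`W : 𝔹 → 𝔻` is holomorphic, onto and prime, `W 0 = 0`, and `h : 𝔻 → 𝔻` is holomorphic, `h 0 = 0`;
and
* if `g` is an extreme point of `N(𝔹)`, then `F` is irreducible, and it is an extreme point of the
  closed unit ball of `H^∞(𝔹)`;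
* if `F` is irreducible, then `F` is prime;
* `F` is prime if and only if `h` is a rotation;
* if `|F| = 1` on an `n`-dimensional real-analytic submanifold of the unit sphere, near a point of
  which `F` is holomorphic, and `F` is prime, then `g` is an extreme point of `N(𝔹)`. So for such
  `F` the four properties `g` extreme, `F` irreducible, `F` prime, `h` a rotation are equivalent. -/
theorem result (n : ℕ) (hn : 1 ≤ n) (F : Cn n → ℂ) (hF : DifferentiableOn ℂ F (ball 0 1))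
    (hlt : ∀ z ∈ ball (0 : Cn n) 1, ‖F z‖ < 1) (h0 : F 0 = 0)
    (hne : ∃ z ∈ ball (0 : Cn n) 1, F z ≠ 0) :
    ∃ (W : Cn n → ℂ) (h : ℂ → ℂ),
      (DifferentiableOn ℂ W (ball 0 1) ∧ W '' ball 0 1 = ball (0 : ℂ) 1 ∧ W 0 = 0 ∧ IsPrime W) ∧
      (DifferentiableOn ℂ h (ball 0 1) ∧ MapsTo h (ball 0 1) (ball 0 1) ∧ h 0 = 0) ∧
      (∀ z ∈ ball (0 : Cn n) 1, F z = h (W z)) ∧
      (IsExtremePoint n (fun z => (1 + F z) / (1 - F z)) → IsIrreducible F ∧ IsExtremeHInf F) ∧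
      (IsIrreducible F → IsPrime F) ∧
      (IsPrime F ↔ ∃ c : ℂ, ‖c‖ = 1 ∧ ∀ w ∈ ball (0 : ℂ) 1, h w = c * w) ∧
      (HasContact F → IsPrime F → IsExtremePoint n (fun z => (1 + F z) / (1 - F z))) := by
  obtain ⟨h1, h2, h3⟩ := H82L.prime_main H69F.irrprime n hn F hF hlt h0
  obtain ⟨W, h, hW, hWo, hW0, hWP, hh, hm, hh0, heq⟩ := uniformise hF hlt h0 hne
  refine ⟨W, h, ⟨hW, hWo, hW0, hWP⟩, ⟨hh, hm, hh0⟩, heq,
    fun hex => ⟨h1 hex, hinf_of_extreme hn hF hlt hex⟩, h2,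
    prime_iff_rot hF h0 hne hW hWo hW0 hWP hh hm hh0 heq, fun hc hP => ?_⟩
  obtain ⟨ζ, hζ⟩ := hasContact_imm hc
  exact h3 ⟨ζ, H82L.good_of_imm hF hlt h0 hζ⟩ hP

end Pool.Agent.Results.MP_6ff8d9_an.Prime
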