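import Pool.Agent.Lib.MP_6ff8d9_an_h22.Irred1

/-!
# MP_6ff8d9_an: the rational extreme points of `N(𝔹)`

`Cn n` is `ℂⁿ` with the Euclidean norm, `NB n` is `N(𝔹)`, `IsExtremePoint` is the definition of the
problem (all three in `Pool.Agent.Lib.MP_6ff8d9_an.Defs`).  A rational function `g` with
`g(0) = 1` is written as `(Q + P)/(Q - P)`, that is `g = (1 + F)/(1 - F)` with `F = P/Q`.
-/

open MvPolynomial Metric
open scoped ComplexConjugate

namespace Pool.Agent.Results.MP_6ff8d9_an.Rational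

open Pool.Agent.Lib.MP_6ff8d9_an

noncomputable section

variable {n : ℕ}

/-- the value of a polynomial at a point of `ℂⁿ` -/
def at' (P : MvPolynomial (Fin n) ℂ) (z : Cn n) : ℂ := eval (fun i => z i) P

/-- the rational function `F = P/Q` -/
def ratio (P Q : MvPolynomial (Fin n) ℂ) (z : Cn n) : ℂ := at' P z / at' Q z

/-- the rational function `g = (Q + P)/(Q - P)`, that is `(1 + F)/(1 - F)` -/
def gFun (P Q : MvPolynomial (Fin n) ℂ) (z : Cn n) : ℂ :=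
  (at' Q z + at' P z) / (at' Q z - at' P z)

/-- `F` belongs to the closed unit ball of `H^∞(𝔹)` -/
def InHinf (n : ℕ) (F : Cn n → ℂ) : Prop :=
  DifferentiableOn ℂ F (ball 0 1) ∧ ∀ z ∈ ball (0 : Cn n) 1, ‖F z‖ ≤ 1

/-- `F` is an extreme point of the closed unit ball of `H^∞(𝔹)` -/
def IsExtHinf (n : ℕ) (F : Cn n → ℂ) : Prop :=
  InHinf n F ∧ ∀ F₁, InHinf n F₁ → ∀ F₂, InHinf n F₂ → ∀ t : ℝ, 0 < t → t < 1 →
    (∀ z ∈ ball (0 : Cn n) 1, F z = t * F₁ z + (1 - t) * F₂ z) →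
    ∀ z ∈ ball (0 : Cn n) 1, F₁ z = F₂ z

/-- `F` is irreducible (Forelli, Rudin): if `F = u v` on the ball with `u`, `v` in the closed unit
ball of `H^∞(𝔹)`, then `u` or `v` is constant -/
def IsIrred (n : ℕ) (F : Cn n → ℂ) : Prop :=
  ∀ u, InHinf n u → ∀ v, InHinf n v → (∀ z ∈ ball (0 : Cn n) 1, F z = u z * v z) →
    (∀ z ∈ ball (0 : Cn n) 1, u z = u 0) ∨ (∀ z ∈ ball (0 : Cn n) 1, v z = v 0)

/-- `F` is prime: every holomorphic function `k` on the ball with `dk ∧ dF = 0` is `K ∘ F` on the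
ball, with `K` holomorphic on the unit disc -/
def IsPrime (n : ℕ) (F : Cn n → ℂ) : Prop :=
  ∀ k : Cn n → ℂ, DifferentiableOn ℂ k (ball 0 1) →
    (∀ z ∈ ball (0 : Cn n) 1, ∀ v w : Cn n,
      fderiv ℂ F z v * fderiv ℂ k z w = fderiv ℂ F z w * fderiv ℂ k z v) →
    ∃ K : ℂ → ℂ, DifferentiableOn ℂ K (ball 0 1) ∧ ∀ z ∈ ball (0 : Cn n) 1, k z = K (F z)

/-- `W_j = Q ∂_j P - P ∂_j Q`, so that `∇(P/Q) = W/Q²` -/
def W (P Q : MvPolynomial (Fin n) ℂ) (j : Fin n) : MvPolynomial (Fin n) ℂ :=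
  Q * pderiv j P - P * pderiv j Q

/-- `R = ∑ z_j W_j` -/
def R (P Q : MvPolynomial (Fin n) ℂ) : MvPolynomial (Fin n) ℂ := ∑ j, X j * W P Q j

/-- the point `σ(z) = conj (W(z)/R(z))` -/
def sigma (P Q : MvPolynomial (Fin n) ℂ) (z : Fin n → ℂ) : Fin n → ℂ :=
  fun j => conj (eval z (W P Q j) / eval z (R P Q))

/-- `F = P/Q` is self-dual: `R ≠ 0`, and for all `z` with `R(z) ≠ 0`, with `w = σ(z)`:
`P(z) conj P(w) = Q(z) conj Q(w)` and `W_j(w) = conj z_j R(w)`.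
(That is `F(z) conj F(σ(z)) = 1` and `σ(σ(z)) = z`, cleared of denominators.) -/
def SelfDual (P Q : MvPolynomial (Fin n) ℂ) : Prop :=
  R P Q ≠ 0 ∧ ∀ z : Fin n → ℂ, eval z (R P Q) ≠ 0 →
    eval z P * conj (eval (sigma P Q z) P) = eval z Q * conj (eval (sigma P Q z) Q) ∧
    ∀ j, eval (sigma P Q z) (W P Q j) = conj (z j) * eval (sigma P Q z) (R P Q)

/-- `|F| = 1` at some point of the unit sphere where `Q ≠ 0` -/
def Contact (P Q : MvPolynomial (Fin n) ℂ) : Prop :=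
  ∃ ζ : Cn n, ‖ζ‖ = 1 ∧ at' Q ζ ≠ 0 ∧ ‖at' P ζ‖ = ‖at' Q ζ‖

/-- Let `n ≥ 1` and let `g = (1 + F)/(1 - F)`, `F = P/Q`, be a rational function in `N(𝔹)`.  The
following are equivalent: `g` is an extreme point of `N(𝔹)`; `F` is an extreme point of the closed
unit ball of `H^∞(𝔹)` and irreducible; `F` is self-dual, has a regular contact point and is
irreducible; `F` is self-dual, has a regular contact point and is prime.  If `Q` has no zero on
the closed ball: `F` is self-dual and `{P = Q}` is connected in the unit sphere. -/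
theorem result (n : ℕ) (hn : 1 ≤ n) (P Q : MvPolynomial (Fin n) ℂ) (hg : gFun P Q ∈ NB n) :
    (IsExtremePoint n (gFun P Q) ↔ IsExtHinf n (ratio P Q) ∧ IsIrred n (ratio P Q)) ∧
    (IsExtremePoint n (gFun P Q) ↔
      SelfDual P Q ∧ Contact P Q ∧ IsIrred n (ratio P Q)) ∧
    (IsExtremePoint n (gFun P Q) ↔
      SelfDual P Q ∧ Contact P Q ∧ IsPrime n (ratio P Q)) ∧
    ((∀ z : Cn n, ‖z‖ ≤ 1 → at' Q z ≠ 0) →
      (IsExtremePoint n (gFun P Q) ↔
        SelfDual P Q ∧ IsConnected {z : Cn n | ‖z‖ = 1 ∧ at' P z = at' Q z})) := by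
  have hct : (H22.Ct0 P Q).Nonempty ↔ Contact P Q := by
    constructor
    · rintro ⟨m, h1, h2, h3⟩
      refine ⟨WithLp.toLp 2 m, ?_, h2, h3⟩
      have h4 := H11.sum_sq (WithLp.toLp 2 m : Cn n)
      have h5 : ‖(WithLp.toLp 2 m : Cn n)‖ ^ 2 = 1 := by rw [← h4]; exact h1
      exact (pow_eq_one_iff_of_nonneg (norm_nonneg _) two_ne_zero).1 h5
    · rintro ⟨ζ, h1, h2, h3⟩
      refine ⟨fun i => ζ i, ?_, h2, h3⟩
      have h4 := H11.sum_sq ζ
      rw [h1, one_pow] at h4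
      exact h4
  have hirr : P69.Irr1 n (ratio P Q) ↔ IsIrred n (ratio P Q) := by
    constructor
    · intro h u hu v hv huv
      exact h u v hu.1 hv.1 fun z hz => ⟨hu.2 z hz, hv.2 z hz, huv z hz⟩
    · intro h u v hu hv hb
      exact h u ⟨hu, fun z hz => (hb z hz).1⟩ v ⟨hv, fun z hz => (hb z hz).2.1⟩
        fun z hz => (hb z hz).2.2
  have s12 : IsExtremePoint n (gFun P Q) → IsExtHinf n (ratio P Q) ∧ IsIrred n (ratio P Q) :=
    fun h => ⟨(H22.step12 hn h).1, hirr.1 (H22.step12 hn h).2⟩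
  have s23 : IsExtHinf n (ratio P Q) → SelfDual P Q ∧ Contact P Q := fun h =>
    ⟨(H22.step23 hn hg h).1, hct.1 (H22.step23 hn hg h).2⟩
  have s34 : SelfDual P Q → Contact P Q → IsIrred n (ratio P Q) → IsPrime n (ratio P Q) :=
    fun hD hC hI => H22.step34 hn hg hD (hct.2 hC) (hirr.2 hI)
  have s41 : SelfDual P Q → Contact P Q → IsPrime n (ratio P Q) →
      IsExtremePoint n (gFun P Q) := fun hD hC hP => H22.step41 hn hg hD (hct.2 hC) hP
  refine ⟨⟨s12, fun h => ?_⟩, ⟨fun h => ?_, fun h => s41 h.1 h.2.1 (s34 h.1 h.2.1 h.2.2)⟩,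
    ⟨fun h => ?_, fun h => s41 h.1 h.2.1 h.2.2⟩, fun hQ => ?_⟩
  · obtain ⟨hD, hC⟩ := s23 h.1
    exact s41 hD hC (s34 hD hC h.2)
  · obtain ⟨hE, hI⟩ := s12 h
    obtain ⟨hD, hC⟩ := s23 hE
    exact ⟨hD, hC, hI⟩
  · obtain ⟨hE, hI⟩ := s12 h
    obtain ⟨hD, hC⟩ := s23 hE
    exact ⟨hD, hC, s34 hD hC hI⟩
  · have h := H22.iff_conn hn P Q hQ
    exact ⟨fun he => (h.1 he).2, fun hd => h.2 ⟨hg, hd⟩⟩

end

end Pool.Agent.Results.MP_6ff8d9_an.Rational
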