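import Pool.Agent.Lib.MP_6ff8d9_an_h8.SymF

/-!
# MP_6ff8d9_an: all extreme points of `N(𝔹)` in dimension `2` which have a continuous symmetry

`Cn 2` is `ℂ²` with the Euclidean norm, `NB 2` is `N(𝔹)`, `IsExtremePoint` is the definition of the
problem (all three in `Pool.Agent.Lib.MP_6ff8d9_an.Defs`).  The coordinates are `z 0` and `z 1`.
-/

open Metric MvPolynomial Matrix

namespace Pool.Agent.Results.MP_6ff8d9_an.SymmetricTwo

open Pool.Agent.Lib.MP_6ff8d9_an

noncomputable section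

/-- `g` is a quotient of polynomials on the ball. -/
def Rational (g : Cn 2 → ℂ) : Prop :=
  ∃ p q : MvPolynomial (Fin 2) ℂ, ∀ z ∈ ball (0 : Cn 2) 1,
    g z = eval (fun i => z i) p / eval (fun i => z i) q

/-- The projective map of the matrix `A`: `z ↦ (w₁/w₀, w₂/w₀)`, where `w = A (1, z₀, z₁)`. -/
def act (A : Matrix (Fin 3) (Fin 3) ℂ) (z : Cn 2) : Cn 2 :=
  WithLp.toLp 2 ![(A *ᵥ ![1, z 0, z 1]) 1 / (A *ᵥ ![1, z 0, z 1]) 0,
    (A *ᵥ ![1, z 0, z 1]) 2 / (A *ᵥ ![1, z 0, z 1]) 0]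

/-- `g` is invariant under a nontrivial one-parameter group of automorphisms of the ball: the maps
of the matrices `exp (isT)`, `s` real, where `T` is selfadjoint for the form
`-|w₀|² + |w₁|² + |w₂|²` and not a multiple of the identity. -/
def Symmetric (g : Cn 2 → ℂ) : Prop :=
  ∃ T : Matrix (Fin 3) (Fin 3) ℂ,
    Matrix.diagonal ![-1, 1, 1] * Tᴴ * Matrix.diagonal ![-1, 1, 1] = T ∧
    (∀ c : ℂ, T ≠ c • (1 : Matrix (Fin 3) (Fin 3) ℂ)) ∧
    ∀ z ∈ ball (0 : Cn 2) 1, ∀ s : ℝ, g (act (NormedSpace.exp ((s * Complex.I) • T)) z) = g z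

/-- `g` is equivalent to `G`: on the ball `g = (G ∘ φ - i Im G(φ(0))) / Re G(φ(0))` for a
biholomorphic map `φ` of the ball onto itself, with inverse `ψ`. -/
def Equivalent (g G : Cn 2 → ℂ) : Prop :=
  ∃ φ ψ : Cn 2 → Cn 2, DifferentiableOn ℂ φ (ball 0 1) ∧ DifferentiableOn ℂ ψ (ball 0 1) ∧
    (∀ z ∈ ball (0 : Cn 2) 1, φ z ∈ ball (0 : Cn 2) 1 ∧ ψ (φ z) = z) ∧
    (∀ z ∈ ball (0 : Cn 2) 1, ψ z ∈ ball (0 : Cn 2) 1 ∧ φ (ψ z) = z) ∧
    ∀ z ∈ ball (0 : Cn 2) 1, g z = (G (φ z) - Complex.I * (G (φ 0)).im) / (G (φ 0)).re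

/-- the indices of the list -/
inductive Index
  | mono (a b : ℕ)
  | quad
  | quadInv
  | hyp (θ : ℝ)
  | par

/-- the admissible indices: `a ≤ b` coprime, `θ ≥ 0` -/
def Index.Admissible : Index → Prop
  | .mono a b => 1 ≤ a ∧ a ≤ b ∧ a.Coprime b
  | .hyp θ => 0 ≤ θ
  | _ => True

/-- the indices of the rational functions in the list -/
def Index.Algebraic : Index → Prop
  | .hyp _ => False
  | .par => False
  | _ => True

/-- `(1 + w) / (1 - w)` -/
def cayley (w : ℂ) : ℂ := (1 + w) / (1 - w)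

/-- `X(z) = (1 + z₀)/(1 - z₀) - (z₁/(1 - z₀))²` -/
def X (z : Cn 2) : ℂ := (1 + z 0) / (1 - z 0) - (z 1 / (1 - z 0)) ^ 2

/-- The list of the functions: `(1 + F)/(1 - F)` for
`F = ((a+b)^(a+b) / (a^a b^b))^(1/2) z₀^a z₁^b` (`mono a b`); `X`; `1/X`; `(1 + F)/(1 - F)` for
`F = (1+θ²)^(1/4) exp(-θ arctan(θ)/2) z₁ (1+iz₀)^(-(1+iθ)/2) (1-iz₀)^(-(1-iθ)/2)` (`hyp θ`) and for
`F = (2e)^(1/2) z₁/(1-z₀) exp(-(1+z₀)/(1-z₀))` (`par`). -/
def Index.fn : Index → Cn 2 → ℂ
  | .mono a b => fun z => cayley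
      (((√(((a : ℝ) + b) ^ (a + b) / ((a : ℝ) ^ a * (b : ℝ) ^ b)) : ℝ) : ℂ) * z 0 ^ a * z 1 ^ b)
  | .quad => X
  | .quadInv => fun z => (X z)⁻¹
  | .hyp θ => fun z => cayley
      (((√(√(1 + θ ^ 2)) * Real.exp (-(θ * Real.arctan θ) / 2) : ℝ) : ℂ) * z 1 *
        Complex.exp (-((1 + θ * Complex.I) / 2 * Complex.log (1 + Complex.I * z 0)) -
          (1 - θ * Complex.I) / 2 * Complex.log (1 - Complex.I * z 0)))
  | .par => fun z => cayley (((√(2 * Real.exp 1) : ℝ) : ℂ) * (z 1 / (1 - z 0)) *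
      Complex.exp (-((1 + z 0) / (1 - z 0))))

/-- the indices of the library -/
def toIdx : Index ≃ N2.Idx where
  toFun
    | .mono a b => .mono a b
    | .quad => .quad
    | .quadInv => .quadInv
    | .hyp θ => .hyp θ
    | .par => .par
  invFun
    | .mono a b => .mono a b
    | .quad => .quad
    | .quadInv => .quadInv
    | .hyp θ => .hyp θ
    | .par => .par
  left_inv i := by cases i <;> rfl
  right_inv i := by cases i <;> rfl

theorem fn_eq (i : Index) : i.fn = (toIdx i).fn := by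
  cases i with
  | mono a b => rfl
  | quad => rfl
  | quadInv => rfl
  | hyp θ =>
    funext z
    show cayley _ = N2.cay (N2.fH θ) 1 z
    unfold cayley N2.cay N2.fH N2.kH
    rw [one_mul]
  | par =>
    funext z
    show cayley _ = N2.cay N2.fP 1 z
    unfold cayley N2.cay N2.fP
    rw [one_mul]

theorem admissible_iff (i : Index) : i.Admissible ↔ (toIdx i).Adm := by cases i <;> rfl

theorem algebraic_iff (i : Index) : i.Algebraic ↔ (toIdx i).Alg := by cases i <;> rfl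

theorem equivalent_iff (g G : Cn 2 → ℂ) : Equivalent g G ↔ N2.Equi g G := by
  constructor
  · rintro ⟨φ, ψ, h1, h2, h3, h4, h5⟩
    exact ⟨φ, ψ, ⟨h1, h2, fun z hz => (h3 z hz).1, fun z hz => (h4 z hz).1,
      fun z hz => (h3 z hz).2, fun z hz => (h4 z hz).2⟩, h5⟩
  · rintro ⟨φ, ψ, h, h5⟩
    exact ⟨φ, ψ, h.dφ, h.dψ, fun z hz => ⟨h.mφ z hz, h.left z hz⟩,
      fun z hz => ⟨h.mψ z hz, h.right z hz⟩, h5⟩

theorem symmetric_iff (g : Cn 2 → ℂ) : Symmetric g ↔ N2.Sym g := Iff.rfl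

theorem rational_iff (g : Cn 2 → ℂ) : Rational g ↔ N2.Rat g := Iff.rfl

/-- the functions equivalent to a member of the list are symmetric extreme points -/
theorem of_equivalent (g : Cn 2 → ℂ) (i : Index) (hi : i.Admissible) (h : Equivalent g i.fn) :
    IsExtremePoint 2 g ∧ Symmetric g := by
  obtain ⟨φ, ψ, hB, he⟩ := (equivalent_iff g i.fn).1 h
  obtain ⟨⟨G, hG, hGi⟩, -⟩ := N2.fnl (toIdx i) ((admissible_iff i).1 hi)
  rw [fn_eq] at he
  refine (N2.finalsym8 g).2 ⟨G, φ, ψ, hG, hB, fun z hz => ?_⟩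
  rw [he z hz]
  exact N2.nrm_congr hB.mφ hGi hz

/-- **All extreme points of `N(𝔹)` in dimension two which are symmetric, and all rational ones.**
A function `g` is an extreme point and invariant under a nontrivial one-parameter group of
automorphisms of the ball if and only if it is equivalent to a function of the list; it is an
extreme point and rational if and only if it is equivalent to one of the functions `mono a b`,
`X`, `1/X` (so every rational extreme point is symmetric); and no function is equivalent to two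
members of the list. -/
theorem result :
    (∀ g : Cn 2 → ℂ, (IsExtremePoint 2 g ∧ Symmetric g) ↔
      ∃ i : Index, i.Admissible ∧ Equivalent g i.fn) ∧
    (∀ g : Cn 2 → ℂ, (IsExtremePoint 2 g ∧ Rational g) ↔
      ∃ i : Index, i.Admissible ∧ i.Algebraic ∧ Equivalent g i.fn) ∧
    (∀ g : Cn 2 → ℂ, IsExtremePoint 2 g → Rational g → Symmetric g) ∧
    ∀ (g : Cn 2 → ℂ) (i j : Index), i.Admissible → j.Admissible → Equivalent g i.fn →
      Equivalent g j.fn → i = j := by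
  have h1 : ∀ g : Cn 2 → ℂ, (IsExtremePoint 2 g ∧ (Symmetric g ∨ Rational g)) ↔
      ∃! i : Index, i.Admissible ∧ Equivalent g i.fn := by
    intro g
    rw [symmetric_iff, rational_iff, (N2.fincan g).1]
    refine (toIdx.existsUnique_congr fun {i} => ?_).symm
    rw [admissible_iff, equivalent_iff, fn_eq]
  have h2 : ∀ g : Cn 2 → ℂ, (IsExtremePoint 2 g ∧ Rational g) ↔
      ∃ i : Index, i.Admissible ∧ i.Algebraic ∧ Equivalent g i.fn := by
    intro g
    constructor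
    · intro hg
      obtain ⟨i, ⟨⟨hi, ha⟩, h⟩, -⟩ := (N2.fincan g).2.1 ⟨hg.1, (rational_iff g).1 hg.2⟩
      refine ⟨toIdx.symm i, ?_, ?_, ?_⟩
      · rw [admissible_iff, Equiv.apply_symm_apply]; exact hi
      · rw [algebraic_iff, Equiv.apply_symm_apply]; exact ha
      · rw [equivalent_iff, fn_eq, Equiv.apply_symm_apply]; exact h
    · rintro ⟨i, hi, ha, h⟩
      refine ⟨(of_equivalent g i hi h).1, (rational_iff g).2 (N2.ratl g (toIdx i)
        ((admissible_iff i).1 hi) ((algebraic_iff i).1 ha) ?_)⟩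
      rw [← fn_eq]
      exact (equivalent_iff g i.fn).1 h
  refine ⟨fun g => ⟨fun hg => ?_, fun ⟨i, hi, h⟩ => of_equivalent g i hi h⟩, h2,
    fun g hg hr => ?_, fun g i j hi hj hgi hgj => ?_⟩
  · exact ((h1 g).1 ⟨hg.1, Or.inl hg.2⟩).exists
  · obtain ⟨i, hi, -, h⟩ := (h2 g).1 ⟨hg, hr⟩
    exact (of_equivalent g i hi h).2
  · obtain ⟨hg, hs⟩ := of_equivalent g i hi hgi
    exact ((h1 g).1 ⟨hg, Or.inl hs⟩).unique ⟨hi, hgi⟩ ⟨hj, hgj⟩

end

end Pool.Agent.Results.MP_6ff8d9_an.SymmetricTwo
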